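import Mathlib

namespace Pool.Agent.Results.MP_5c57f5_nt.Full

open Finset

/-- `u ≡ v (mod p^m)` for rationals: `(u - v) / p^m` has denominator prime to `p` -/
def cong (p m : ℕ) (u v : ℚ) : Prop := ¬ p ∣ ((u - v) / (p : ℚ) ^ m).den

instance (p m : ℕ) (u v : ℚ) : Decidable (cong p m u v) := by unfold cong; infer_instance

theorem result : ¬ ∀ p : ℕ, p.Prime → 3 < p → p % 3 = 2 →
    cong p 2
      (∑ k ∈ range p, ((2 * k).choose k : ℚ) ^ 2 * ((3 * k).choose k : ℚ) / (-8640) ^ k) 0 := by
  intro h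
  have h1 := h 5 (by norm_num) (by norm_num) (by norm_num)
  revert h1
  simp only [Nat.choose_eq_descFactorial_div_factorial]
  decide +kernel

end Pool.Agent.Results.MP_5c57f5_nt.Full
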